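import Pool.Agent.H443Z.RW3

set_option autoImplicit false

namespace Pool.Agent.Results.MP_8df5c2_pr.BBounded

open MeasureTheory Pool.Agent.H443Z.RW

/-- Q2: if `Dim A < d - α N` then the range of the additive walk meets `A` in a bounded set,
almost surely. -/
theorem result (d N : ℕ) (α : ℝ) (ν : Measure (Fin d → ℤ)) [IsProbabilityMeasure ν]
    (hα : 0 < α) (hN : 1 ≤ N) (hd : α * N < d) (hν : BarlowTaylor ν α)
    (A : Set (Fin d → ℤ)) (hA : Dim A < ENNReal.ofReal (d - α * N)) :
    ∀ᵐ ω ∂lawN ν N, Bornology.IsBounded (Set.range (posN ω) ∩ A) :=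
  q2 hα N hN hd hν A hA

end Pool.Agent.Results.MP_8df5c2_pr.BBounded
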